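import Mathlib

/-!
Non-autonomous basins of sequences of automorphisms of `ℂ²` which contract the unit ball uniformly:
base point and constants can be normalised.
-/

set_option autoImplicit false

open Filter Topology Metric

namespace Pool.Agent.H76.NB

/-- `ℂ²` with the Euclidean norm -/
abbrev E := EuclideanSpace ℂ (Fin 2)

/-- `F f n = f (n-1) ∘ ... ∘ f 0` -/
def F (f : ℕ → (E ≃ E)) : ℕ → (E ≃ E)
  | 0 => Equiv.refl E
  | n + 1 => (F f n).trans (f n)

/-- holomorphic automorphisms with `C ‖z‖ ≤ ‖f_j z‖ ≤ D ‖z‖` on the unit ball -/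
structure Admissible (C D : ℝ) (f : ℕ → (E ≃ E)) : Prop where
  diff : ∀ n, Differentiable ℂ (f n)
  diffs : ∀ n, Differentiable ℂ (f n).symm
  bound : ∀ (n : ℕ) (z : E), ‖z‖ < 1 → C * ‖z‖ ≤ ‖f n z‖ ∧ ‖f n z‖ ≤ D * ‖z‖

/-- the non-autonomous basin of attraction of the origin -/
def basin (f : ℕ → (E ≃ E)) : Set E := {z | Tendsto (fun n => F f n z) atTop (𝓝 0)}

/-- there is an entire map into `Ω` with nowhere vanishing Jacobian taking `0` to `p` -/
def Good (Ω : Set E) (p : E) : Prop :=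
  ∃ Φ : E → E, Differentiable ℂ Φ ∧ Φ 0 = p ∧ (∀ z, Φ z ∈ Ω) ∧
    ∀ z, LinearMap.det (fderiv ℂ Φ z).toLinearMap ≠ 0

lemma F_succ (f : ℕ → (E ≃ E)) (n : ℕ) (z : E) : F f (n + 1) z = f n (F f n z) := rfl

lemma F_diff {C D : ℝ} {f : ℕ → (E ≃ E)} (h : Admissible C D f) (n : ℕ) :
    Differentiable ℂ (F f n) := by
  induction n with
  | zero => exact differentiable_id
  | succ n ih => exact (h.diff n).comp ih

lemma F_diffs {C D : ℝ} {f : ℕ → (E ≃ E)} (h : Admissible C D f) (n : ℕ) :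
    Differentiable ℂ (F f n).symm := by
  induction n with
  | zero => exact differentiable_id
  | succ n ih => exact ih.comp (h.diffs n)

/-- once in the unit ball, the orbit contracts -/
lemma contract {C D : ℝ} (hD0 : 0 < D) (hD : D < 1) {f : ℕ → (E ≃ E)} (h : Admissible C D f)
    {n : ℕ} {z : E} (hz : ‖F f n z‖ < 1) (m : ℕ) :
    ‖F f (n + m) z‖ ≤ D ^ m * ‖F f n z‖ ∧ ‖F f (n + m) z‖ < 1 := by
  induction m with
  | zero => simpa using hz
  | succ m ih =>
    obtain ⟨h1, h2⟩ := ih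
    have h3 := (h.bound (n + m) _ h2).2
    have h4 : F f (n + (m + 1)) z = f (n + m) (F f (n + m) z) := rfl
    rw [h4]
    refine ⟨?_, ?_⟩
    · calc ‖f (n + m) (F f (n + m) z)‖ ≤ D * ‖F f (n + m) z‖ := h3
        _ ≤ D * (D ^ m * ‖F f n z‖) := by gcongr
        _ = D ^ (m + 1) * ‖F f n z‖ := by ring
    · have h5 : D * ‖F f (n + m) z‖ ≤ 1 * ‖F f (n + m) z‖ := by gcongr
      linarith

lemma mem_basin_iff {C D : ℝ} (hD0 : 0 < D) (hD : D < 1) {f : ℕ → (E ≃ E)}
    (h : Admissible C D f) (z : E) : z ∈ basin f ↔ ∃ n, ‖F f n z‖ < 1 := by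
  constructor
  · intro hz
    have h1 : Tendsto (fun n => ‖F f n z‖) atTop (𝓝 0) := by
      simpa using (show Tendsto (fun n => F f n z) atTop (𝓝 0) from hz).norm
    exact ((tendsto_order.1 h1).2 1 one_pos).exists
  · rintro ⟨n, hn⟩
    have h1 : Tendsto (fun m => F f (n + m) z) atTop (𝓝 0) := by
      rw [tendsto_zero_iff_norm_tendsto_zero]
      have h2 : Tendsto (fun m : ℕ => D ^ m * ‖F f n z‖) atTop (𝓝 0) := by
        simpa using (tendsto_pow_atTop_nhds_zero_of_lt_one hD0.le hD).mul_const ‖F f n z‖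
      exact squeeze_zero (fun _ => norm_nonneg _) (fun m => (contract hD0 hD h hn m).1) h2
    show Tendsto (fun n => F f n z) atTop (𝓝 0)
    have h3 : (fun m => F f (n + m) z) = (fun m => (fun k => F f k z) (m + n)) := by
      funext m; rw [Nat.add_comm]
    rw [h3] at h1
    exact (tendsto_add_atTop_iff_nat n).1 h1

lemma map_zero_of {C D : ℝ} {f : ℕ → (E ≃ E)} (h : Admissible C D f) (n : ℕ) : f n 0 = 0 := by
  have := (h.bound n 0 (by simp)).2
  simpa using this

lemma F_zero_of {C D : ℝ} {f : ℕ → (E ≃ E)} (h : Admissible C D f) (n : ℕ) : F f n 0 = 0 := by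
  induction n with
  | zero => rfl
  | succ n ih => rw [F_succ, ih, map_zero_of h]

lemma zero_mem_basin {C D : ℝ} {f : ℕ → (E ≃ E)} (h : Admissible C D f) : (0 : E) ∈ basin f := by
  show Tendsto (fun n => F f n 0) atTop (𝓝 0)
  simp [F_zero_of h]

/-! ### grouping -/

/-- `f (a+k-1) ∘ ... ∘ f a` -/
def block (f : ℕ → (E ≃ E)) (a : ℕ) : ℕ → (E ≃ E)
  | 0 => Equiv.refl E
  | k + 1 => (block f a k).trans (f (a + k))

lemma F_add (f : ℕ → (E ≃ E)) (a k : ℕ) (z : E) : F f (a + k) z = block f a k (F f a z) := by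
  induction k with
  | zero => rfl
  | succ k ih =>
    show F f ((a + k) + 1) z = _
    rw [F_succ, ih]; rfl

lemma block_bound {C D : ℝ} (hC : 0 < C) (hD0 : 0 < D) (hD : D < 1) {f : ℕ → (E ≃ E)}
    (h : Admissible C D f) (a k : ℕ) {z : E} (hz : ‖z‖ < 1) :
    C ^ k * ‖z‖ ≤ ‖block f a k z‖ ∧ ‖block f a k z‖ ≤ D ^ k * ‖z‖ ∧ ‖block f a k z‖ < 1 := by
  induction k with
  | zero => simpa [block] using hz
  | succ k ih =>
    obtain ⟨h1, h2, h3⟩ := ih
    obtain ⟨h4, h5⟩ := h.bound (a + k) _ h3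
    have h6 : block f a (k + 1) z = f (a + k) (block f a k z) := rfl
    rw [h6]
    refine ⟨?_, ?_, ?_⟩
    · calc C ^ (k + 1) * ‖z‖ = C * (C ^ k * ‖z‖) := by ring
        _ ≤ C * ‖block f a k z‖ := by gcongr
        _ ≤ _ := h4
    · calc _ ≤ D * ‖block f a k z‖ := h5
        _ ≤ D * (D ^ k * ‖z‖) := by gcongr
        _ = _ := by ring
    · have h7 : D * ‖block f a k z‖ ≤ 1 * ‖block f a k z‖ := by gcongr
      linarith

lemma block_diff {C D : ℝ} {f : ℕ → (E ≃ E)} (h : Admissible C D f) (a k : ℕ) :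
    Differentiable ℂ (block f a k) := by
  induction k with
  | zero => exact differentiable_id
  | succ n ih => exact (h.diff _).comp ih

lemma block_diffs {C D : ℝ} {f : ℕ → (E ≃ E)} (h : Admissible C D f) (a k : ℕ) :
    Differentiable ℂ (block f a k).symm := by
  induction k with
  | zero => exact differentiable_id
  | succ n ih => exact ih.comp (h.diffs _)

theorem group {C D : ℝ} (hC : 0 < C) (hD0 : 0 < D) (hD : D < 1) {f : ℕ → (E ≃ E)}
    (h : Admissible C D f) {k : ℕ} (hk : 1 ≤ k) :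
    ∃ g : ℕ → (E ≃ E), Admissible (C ^ k) (D ^ k) g ∧ basin g = basin f := by
  have hadm : Admissible (C ^ k) (D ^ k) (fun j => block f (j * k) k) :=
    ⟨fun n => block_diff h _ _, fun n => block_diffs h _ _, fun n z hz =>
      ⟨(block_bound hC hD0 hD h _ _ hz).1, (block_bound hC hD0 hD h _ _ hz).2.1⟩⟩
  refine ⟨fun j => block f (j * k) k, hadm, ?_⟩
  have hF : ∀ (n : ℕ) (z : E), F (fun j => block f (j * k) k) n z = F f (n * k) z := by
    intro n z
    induction n with
    | zero => simp [F]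
    | succ n ih => rw [F_succ, ih, Nat.succ_mul, F_add]
  have hDk : D ^ k < 1 := pow_lt_one₀ hD0.le hD (by omega)
  ext z
  rw [mem_basin_iff (pow_pos hD0 k) hDk hadm, mem_basin_iff hD0 hD h]
  constructor
  · rintro ⟨n, hn⟩
    rw [hF] at hn
    exact ⟨_, hn⟩
  · rintro ⟨m, hm⟩
    refine ⟨m, ?_⟩
    rw [hF]
    obtain ⟨c, rfl⟩ : ∃ c, k = c + 1 := ⟨k - 1, by omega⟩
    have := (contract hD0 hD h hm (m * c)).2
    rwa [show m + m * c = m * (c + 1) by ring] at this

/-! ### moving the base point -/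

/-- Schwarz lemma on lines -/
lemma schwarz {G : E → E} (hG : Differentiable ℂ G) {a : E} {R S : ℝ} (hR : 0 < R)
    (h : ∀ z : E, ‖z‖ < R → ‖G (a + z) - G a‖ ≤ S) {z : E} (hz : ‖z‖ < R) :
    ‖G (a + z) - G a‖ ≤ S / R * ‖z‖ := by
  rcases eq_or_ne z 0 with rfl | hz0
  · simp
  have hn : 0 < ‖z‖ := norm_pos_iff.2 hz0
  have hR1 : 1 < R / ‖z‖ := (one_lt_div hn).2 hz
  have hd : DifferentiableOn ℂ (fun t : ℂ => G (a + t • z)) (ball 0 (R / ‖z‖)) := by
    apply Differentiable.differentiableOn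
    exact hG.comp ((differentiable_const a).add (differentiable_id.smul_const z))
  have hm : Set.MapsTo (fun t : ℂ => G (a + t • z)) (ball 0 (R / ‖z‖))
      (closedBall ((fun t : ℂ => G (a + t • z)) 0) S) := by
    intro t ht
    rw [mem_ball_zero_iff] at ht
    rw [mem_closedBall, dist_eq_norm]
    simp only [zero_smul, add_zero]
    apply h
    rw [norm_smul]
    calc ‖t‖ * ‖z‖ < R / ‖z‖ * ‖z‖ := by gcongr
      _ = R := by field_simp
  have h1 : (1 : ℂ) ∈ ball (0 : ℂ) (R / ‖z‖) := by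
    rw [mem_ball_zero_iff]; simpa using hR1
  have := Complex.dist_le_div_mul_dist_of_mapsTo_ball hd hm h1
  simp only [one_smul, zero_smul, add_zero, dist_eq_norm, sub_zero, norm_one, mul_one] at this
  calc ‖G (a + z) - G a‖ ≤ S / (R / ‖z‖) := this
    _ = S / R * ‖z‖ := by field_simp

/-- the inverse maps the ball of radius `C` into the unit ball -/
lemma inv_lt {C D : ℝ} {f : ℕ → (E ≃ E)} (h : Admissible C D f) (n : ℕ) {w : E}
    (hw : ‖w‖ < C) : ‖(f n).symm w‖ < 1 := by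
  by_contra hcon
  push Not at hcon
  have hC : 0 < C := lt_of_le_of_lt (norm_nonneg _) hw
  have hcont : Continuous (fun t : ℝ => ‖(f n).symm ((t : ℂ) • w)‖) := by
    have := (h.diffs n).continuous
    fun_prop
  have h0 : ‖(f n).symm (((0 : ℝ) : ℂ) • w)‖ = 0 := by
    have : (f n).symm 0 = 0 := by
      rw [Equiv.symm_apply_eq, map_zero_of h]
    simp [this]
  obtain ⟨s, hs1, hs2⟩ : ∃ s : ℝ, ‖w‖ / C < s ∧ s < 1 := exists_between ((div_lt_one hC).2 hw)
  have hs0 : 0 < s := lt_of_le_of_lt (by positivity) hs1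
  have hmem : s ∈ Set.Icc (‖(f n).symm (((0 : ℝ) : ℂ) • w)‖) (‖(f n).symm (((1 : ℝ) : ℂ) • w)‖) := by
    rw [h0]
    refine ⟨hs0.le, ?_⟩
    simp only [Complex.ofReal_one, one_smul]
    linarith
  obtain ⟨t, ht, hts⟩ := intermediate_value_Icc (zero_le_one) hcont.continuousOn hmem
  simp only at hts
  have hb := (h.bound n ((f n).symm ((t : ℂ) • w)) (by rw [hts]; exact hs2)).1
  rw [hts, Equiv.apply_symm_apply, norm_smul, Complex.norm_real, Real.norm_of_nonneg ht.1] at hb
  have h1 : ‖w‖ < s * C := (div_lt_iff₀ hC).1 hs1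
  have h2 : t * ‖w‖ ≤ 1 * ‖w‖ := by
    have := ht.2
    gcongr
  nlinarith

/-- the upper bound for the map moved to the base point `q` -/
lemma upper {C D δ : ℝ} (hD0 : 0 < D) (hδ : δ < 1) {f : ℕ → (E ≃ E)}
    (h : Admissible C D f) (n : ℕ) {q : E} (hq : ‖q‖ ≤ δ) {z : E} (hz : ‖z‖ < 1 - δ) :
    ‖f n (q + z) - f n q‖ ≤ D * (1 + δ) / (1 - δ) * ‖z‖ := by
  refine schwarz (h.diff n) (by linarith) ?_ hz
  intro y hy
  have h1 : ‖q + y‖ < 1 := lt_of_le_of_lt (norm_add_le _ _) (by linarith)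
  have h2 := (h.bound n _ h1).2
  have h3 := (h.bound n q (by linarith)).2
  calc ‖f n (q + y) - f n q‖ ≤ ‖f n (q + y)‖ + ‖f n q‖ := norm_sub_le _ _
    _ ≤ D * ‖q + y‖ + D * ‖q‖ := by gcongr
    _ ≤ D * 1 + D * δ := by gcongr
    _ = D * (1 + δ) := by ring

/-- the lower bound for the map moved to the base point `q` -/
lemma lower {C D δ : ℝ} (hD0 : 0 < D) (hδ : δ < 1) {f : ℕ → (E ≃ E)} (hCD : D * δ < C)
    (h : Admissible C D f) (n : ℕ) {q : E} (hq : ‖q‖ ≤ δ) {z : E} (hz : ‖z‖ < 1) :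
    (C - D * δ) / (1 + δ) * ‖z‖ ≤ ‖f n (q + z) - f n q‖ := by
  have hδ0 : 0 ≤ δ := (norm_nonneg _).trans hq
  have hfq := (h.bound n q (by linarith)).2
  have hfq' : ‖f n q‖ ≤ D * δ := hfq.trans (by gcongr)
  rcases lt_or_ge ‖f n (q + z) - f n q‖ (C - D * δ) with hlt | hge
  · have h1 := schwarz (G := (f n).symm) (h.diffs n) (a := f n q) (R := C - D * δ)
      (S := 1 + δ) (by linarith) ?_ hlt
    · rw [show f n q + (f n (q + z) - f n q) = f n (q + z) by abel, Equiv.symm_apply_apply,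
        Equiv.symm_apply_apply, show q + z - q = z by abel] at h1
      have hpos : 0 < C - D * δ := by linarith
      calc (C - D * δ) / (1 + δ) * ‖z‖
          ≤ (C - D * δ) / (1 + δ) * ((1 + δ) / (C - D * δ) * ‖f n (q + z) - f n q‖) := by
            gcongr
        _ = ‖f n (q + z) - f n q‖ := by
            have : (1 + δ) ≠ 0 := by positivity
            field_simp
    · intro y hy
      rw [Equiv.symm_apply_apply]
      have h2 : ‖f n q + y‖ < C := lt_of_le_of_lt (norm_add_le _ _) (by linarith)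
      have h3 := inv_lt h n h2
      calc ‖(f n).symm (f n q + y) - q‖ ≤ ‖(f n).symm (f n q + y)‖ + ‖q‖ := norm_sub_le _ _
        _ ≤ 1 + δ := by gcongr
  · refine le_trans ?_ hge
    have hpos : 0 < C - D * δ := by linarith
    rw [div_mul_eq_mul_div, div_le_iff₀ (by positivity)]
    have : ‖z‖ ≤ 1 + δ := by linarith
    gcongr

/-- the affine map `z ↦ r z + q` -/
noncomputable def aff (r : ℝ) (hr : r ≠ 0) (q : E) : E ≃ E where
  toFun z := q + (r : ℂ) • z
  invFun z := ((r : ℂ)⁻¹) • (z - q)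
  left_inv z := by
    have : (r : ℂ) ≠ 0 := by exact_mod_cast hr
    show ((r : ℂ)⁻¹) • (q + (r : ℂ) • z - q) = z
    rw [add_sub_cancel_left, smul_smul, inv_mul_cancel₀ this, one_smul]
  right_inv z := by
    have : (r : ℂ) ≠ 0 := by exact_mod_cast hr
    show q + (r : ℂ) • (((r : ℂ)⁻¹) • (z - q)) = z
    rw [smul_smul, mul_inv_cancel₀ this, one_smul]
    abel

lemma aff_apply (r : ℝ) (hr : r ≠ 0) (q z : E) : aff r hr q z = q + (r : ℂ) • z := rfl

lemma aff_symm_apply (r : ℝ) (hr : r ≠ 0) (q z : E) :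
    (aff r hr q).symm z = ((r : ℂ)⁻¹) • (z - q) := rfl

lemma aff_diff (r : ℝ) (hr : r ≠ 0) (q : E) : Differentiable ℂ (aff r hr q) := by
  show Differentiable ℂ (fun z : E => q + (r : ℂ) • z)
  fun_prop

lemma aff_diffs (r : ℝ) (hr : r ≠ 0) (q : E) : Differentiable ℂ (aff r hr q).symm := by
  show Differentiable ℂ (fun z : E => ((r : ℂ)⁻¹) • (z - q))
  fun_prop

/-- every point of the basin can be made the fixed point -/
theorem move {C D C' D' : ℝ} (hC' : 0 < C') (hCC : C' < C) (hDD : D < D') (hD' : D' < 1)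
    (hD0 : 0 < D) {f : ℕ → (E ≃ E)} (h : Admissible C D f) {p : E} (hp : p ∈ basin f) :
    ∃ g : ℕ → (E ≃ E), Admissible C' D' g ∧ ∃ A : E ≃ E, Differentiable ℂ A ∧
      Differentiable ℂ A.symm ∧ A 0 = p ∧ A '' (basin g) = basin f := by
  have hD : D < 1 := by linarith
  -- C ≤ D from a nonzero vector
  have hCD : C ≤ D := by
    obtain ⟨v, hv⟩ : ∃ v : E, ‖v‖ = 1 / 2 := by
      obtain ⟨v, hv⟩ := exists_ne (0 : E)
      have hn : ‖v‖ ≠ 0 := norm_ne_zero_iff.2 hv
      refine ⟨((1 / 2 * ‖v‖⁻¹ : ℝ) : ℂ) • v, ?_⟩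
      rw [norm_smul, Complex.norm_real, Real.norm_of_nonneg (by positivity)]
      field_simp
    obtain ⟨h1, h2⟩ := h.bound 0 v (by rw [hv]; norm_num)
    rw [hv] at h1 h2
    linarith
  obtain ⟨δ, hδ0, hδ1, hδ2⟩ : ∃ δ : ℝ, 0 < δ ∧ δ ≤ (D' - D) / 2 ∧ δ ≤ (C - C') / 2 :=
    ⟨min ((D' - D) / 2) ((C - C') / 2), lt_min (by linarith) (by linarith),
      min_le_left _ _, min_le_right _ _⟩
  have hδ : δ < 1 := by linarith
  have hr : (1 - δ) ≠ 0 := by linarith
  have hrpos : 0 < 1 - δ := by linarith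
  have hDδ : D * δ < C := by nlinarith
  have hup : D * (1 + δ) / (1 - δ) ≤ D' := by
    rw [div_le_iff₀ hrpos]; nlinarith
  have hlo : C' ≤ (C - D * δ) / (1 + δ) := by
    rw [le_div_iff₀ (by positivity)]; nlinarith
  -- the orbit is small from `N` on
  obtain ⟨N, hN⟩ : ∃ N, ∀ n ≥ N, ‖F f n p‖ ≤ δ := by
    have h1 : Tendsto (fun n => ‖F f n p‖) atTop (𝓝 0) := by
      simpa using (show Tendsto (fun n => F f n p) atTop (𝓝 0) from hp).norm
    obtain ⟨N, hN⟩ := Filter.eventually_atTop.1 ((tendsto_order.1 h1).2 δ hδ0)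
    exact ⟨N, fun n hn => (hN n hn).le⟩
  -- the moved maps
  let g : ℕ → (E ≃ E) := fun j =>
    ((aff (1 - δ) hr (F f (N + j) p)).trans (f (N + j))).trans
      (aff (1 - δ) hr (F f (N + (j + 1)) p)).symm
  have hg : ∀ (j : ℕ) (z : E), g j z = (((1 - δ : ℝ) : ℂ)⁻¹) •
      (f (N + j) (F f (N + j) p + ((1 - δ : ℝ) : ℂ) • z) - f (N + j) (F f (N + j) p)) := by
    intro j z; rfl
  have hnr : ‖(((1 - δ : ℝ) : ℂ)⁻¹)‖ = (1 - δ)⁻¹ := by
    rw [norm_inv, Complex.norm_real, Real.norm_of_nonneg hrpos.le]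
  have hnr' : ‖((1 - δ : ℝ) : ℂ)‖ = (1 - δ) := by
    rw [Complex.norm_real, Real.norm_of_nonneg hrpos.le]
  have hadm : Admissible C' D' g := by
    refine ⟨fun j => ?_, fun j => ?_, fun j z hz => ?_⟩
    · exact (aff_diffs (1 - δ) hr (F f (N + (j + 1)) p)).comp
        ((h.diff (N + j)).comp (aff_diff (1 - δ) hr (F f (N + j) p)))
    · exact (aff_diffs (1 - δ) hr (F f (N + j) p)).comp
        ((h.diffs (N + j)).comp (aff_diff (1 - δ) hr (F f (N + (j + 1)) p)))
    · have hq := hN (N + j) (by omega)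
      have hz2 : ‖((1 - δ : ℝ) : ℂ) • z‖ < 1 - δ := by
        rw [norm_smul, hnr']
        calc (1 - δ) * ‖z‖ < (1 - δ) * 1 := by gcongr
          _ = 1 - δ := by ring
      have hu := upper hD0 hδ h (N + j) hq hz2
      have hl := lower hD0 hδ hDδ h (N + j) hq (z := ((1 - δ : ℝ) : ℂ) • z) (by linarith)
      rw [hg, norm_smul, hnr]
      rw [norm_smul, hnr'] at hu hl
      constructor
      · calc C' * ‖z‖ ≤ (C - D * δ) / (1 + δ) * ‖z‖ := by gcongr
          _ = (1 - δ)⁻¹ * ((C - D * δ) / (1 + δ) * ((1 - δ) * ‖z‖)) := by field_simp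
          _ ≤ _ := by gcongr
      · calc _ ≤ (1 - δ)⁻¹ * (D * (1 + δ) / (1 - δ) * ((1 - δ) * ‖z‖)) := by gcongr
          _ = D * (1 + δ) / (1 - δ) * ‖z‖ := by field_simp
          _ ≤ D' * ‖z‖ := by gcongr
  refine ⟨g, hadm, (aff (1 - δ) hr (F f N p)).trans (F f N).symm, ?_, ?_, ?_, ?_⟩
  · exact (F_diffs h N).comp (aff_diff (1 - δ) hr (F f N p))
  · exact (aff_diffs (1 - δ) hr (F f N p)).comp (F_diff h N)
  · show (F f N).symm (F f N p + ((1 - δ : ℝ) : ℂ) • (0 : E)) = p
    simp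
  · -- orbits correspond
    have horb : ∀ (z : E) (n : ℕ),
        F f (N + n) ((F f N).symm (F f N p + ((1 - δ : ℝ) : ℂ) • z)) =
          F f (N + n) p + ((1 - δ : ℝ) : ℂ) • F g n z := by
      intro z n
      have hne : ((1 - δ : ℝ) : ℂ) ≠ 0 := by exact_mod_cast hr
      induction n with
      | zero =>
        show F f N ((F f N).symm _) = _
        rw [Equiv.apply_symm_apply]; rfl
      | succ n ih =>
        have h1 : ∀ y, F f (N + (n + 1)) y = f (N + n) (F f (N + n) y) := fun y => rfl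
        rw [h1, h1, ih, F_succ, hg, smul_smul, mul_inv_cancel₀ hne, one_smul]
        abel
    have hkey : ∀ z : E, z ∈ basin g ↔
        (F f N).symm (F f N p + ((1 - δ : ℝ) : ℂ) • z) ∈ basin f := by
      intro z
      have hne : ((1 - δ : ℝ) : ℂ) ≠ 0 := by exact_mod_cast hr
      have hpN : Tendsto (fun n => F f (N + n) p) atTop (𝓝 0) := by
        have h3 : (fun m => F f (N + m) p) = (fun m => (fun k => F f k p) (m + N)) := by
          funext m; rw [Nat.add_comm]
        rw [h3]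
        exact (tendsto_add_atTop_iff_nat N).2 hp
      have hiff : ∀ y : E, y ∈ basin f ↔ Tendsto (fun n => F f (N + n) y) atTop (𝓝 0) := by
        intro y
        have h3 : (fun m => F f (N + m) y) = (fun m => (fun k => F f k y) (m + N)) := by
          funext m; rw [Nat.add_comm]
        rw [h3]
        exact (tendsto_add_atTop_iff_nat (f := fun k => F f k y) N).symm
      rw [hiff]
      simp only [horb]
      constructor
      · intro hz
        have hz' : Tendsto (fun n => F g n z) atTop (𝓝 0) := hz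
        simpa using hpN.add (hz'.const_smul (((1 - δ : ℝ) : ℂ)))
      · intro hz
        show Tendsto (fun n => F g n z) atTop (𝓝 0)
        have h4 := (hz.sub hpN).const_smul ((((1 - δ : ℝ) : ℂ))⁻¹)
        simp only [add_sub_cancel_left, smul_smul, inv_mul_cancel₀ hne, one_smul, sub_zero,
          smul_zero] at h4
        exact h4
    ext y
    constructor
    · rintro ⟨z, hz, rfl⟩
      exact (hkey z).1 hz
    · intro hy
      refine ⟨((aff (1 - δ) hr (F f N p)).trans (F f N).symm).symm y, ?_, ?_⟩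
      · rw [hkey]
        have : (F f N).symm (F f N p + ((1 - δ : ℝ) : ℂ) •
            (((aff (1 - δ) hr (F f N p)).trans (F f N).symm).symm y)) =
            ((aff (1 - δ) hr (F f N p)).trans (F f N).symm)
              (((aff (1 - δ) hr (F f N p)).trans (F f N).symm).symm y) := rfl
        rw [this, Equiv.apply_symm_apply]
        exact hy
      · exact Equiv.apply_symm_apply _ _

/-! ### the property asked for is invariant -/

lemma det_ne {A : E ≃ E} (hA : Differentiable ℂ A) (hA' : Differentiable ℂ A.symm) (z : E) :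
    LinearMap.det (fderiv ℂ A z).toLinearMap ≠ 0 := by
  have h1 : (fderiv ℂ A.symm (A z)).comp (fderiv ℂ A z) = ContinuousLinearMap.id ℂ E := by
    rw [← fderiv_comp z (hA' _) (hA _)]
    have : (A.symm ∘ A : E → E) = id := by
      funext y; simp
    rw [this, fderiv_id]
  have h2 : (fderiv ℂ A.symm (A z)).toLinearMap ∘ₗ (fderiv ℂ A z).toLinearMap =
      LinearMap.id := by
    ext1 v
    exact congrArg (fun L : E →L[ℂ] E => L v) h1
  intro h0
  have h3 := congrArg LinearMap.det h2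
  rw [LinearMap.det_comp, h0, mul_zero, LinearMap.det_id] at h3
  exact zero_ne_one h3

theorem good_move {Ω Ω' : Set E} {q : E} {A : E ≃ E} (hA : Differentiable ℂ A)
    (hA' : Differentiable ℂ A.symm) (hΩ : A '' Ω' = Ω) (h : Good Ω' q) : Good Ω (A q) := by
  obtain ⟨Φ, h1, h2, h3, h4⟩ := h
  refine ⟨A ∘ Φ, hA.comp h1, by simp [h2], fun z => ?_, fun z => ?_⟩
  · rw [← hΩ]; exact ⟨Φ z, h3 z, rfl⟩
  · rw [fderiv_comp z (hA _) (h1 _)]
    have : ((fderiv ℂ A (Φ z)).comp (fderiv ℂ Φ z)).toLinearMap =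
        (fderiv ℂ A (Φ z)).toLinearMap ∘ₗ (fderiv ℂ Φ z).toLinearMap := rfl
    rw [this, LinearMap.det_comp]
    exact mul_ne_zero (det_ne hA hA' _) (h4 z)

theorem reduction {ε : ℝ} (hε : 0 < ε) :
    (∀ (C D : ℝ) (f : ℕ → (E ≃ E)), 0 < C → C < D → D < 1 → Admissible C D f →
      ∀ p ∈ basin f, Good (basin f) p) ↔
    (∀ (C D : ℝ) (f : ℕ → (E ≃ E)), 0 < C → C < D → D < 1 → D < ε → Admissible C D f →
      Good (basin f) 0) := by
  constructor
  · intro H C D f hC hCD hD _ hf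
    exact H C D f hC hCD hD hf 0 (zero_mem_basin hf)
  · intro H C D f hC hCD hD hf p hp
    have hD0 : 0 < D := hC.trans hCD
    obtain ⟨g, hg, A, hA, hA', hA0, hAb⟩ := move (C' := C / 2) (D' := (1 + D) / 2) (by linarith)
      (by linarith) (by linarith) (by linarith) hD0 hf hp
    have hD1 : (1 + D) / 2 < 1 := by linarith
    have hD1' : 0 < (1 + D) / 2 := by linarith
    obtain ⟨k, hk⟩ := exists_pow_lt_of_lt_one hε hD1
    obtain ⟨g', hg', hb⟩ := group (by linarith : 0 < C / 2) hD1' hD1 hg (k := k + 1) (by omega)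
    have h1 : ((1 + D) / 2) ^ (k + 1) < 1 := pow_lt_one₀ hD1'.le hD1 (by omega)
    have h2 : ((1 + D) / 2) ^ (k + 1) < ε := by
      refine lt_of_le_of_lt ?_ hk
      exact pow_le_pow_of_le_one hD1'.le hD1.le (by omega)
    have h3 : (C / 2) ^ (k + 1) < ((1 + D) / 2) ^ (k + 1) :=
      pow_lt_pow_left₀ (by linarith) (by linarith) (by omega)
    have h4 := H _ _ g' (pow_pos (by linarith) _) h3 h1 h2 hg'
    rw [hb] at h4
    rw [← hA0]
    exact good_move hA hA' hAb h4

end Pool.Agent.H76.NB
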