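import Mathlib
import Pool.Agent.H76.NB.Base

/-!
Triangular derivatives, and the reduction of the problem to normalised sequences.
-/

set_option autoImplicit false

open Filter Topology Metric

namespace Pool.Agent.H76.NB

/-- the first unit vector -/
noncomputable def e1 : E := EuclideanSpace.single 0 1

/-- all derivatives at the origin are upper triangular -/
def Tri (f : ℕ → (E ≃ E)) : Prop := ∀ n, ∃ c : ℂ, fderiv ℂ (f n) 0 e1 = c • e1

lemma exists_unitary (v : E) : ∃ (U : E ≃ₗᵢ[ℂ] E) (c : ℂ), U v = c • e1 := by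
  rcases eq_or_ne v 0 with rfl | hv
  · exact ⟨LinearIsometryEquiv.refl ℂ E, 0, by simp⟩
  · have hn : ‖v‖ ≠ 0 := norm_ne_zero_iff.2 hv
    have hnc : ((‖v‖ : ℝ) : ℂ) ≠ 0 := by exact_mod_cast hn
    have hu : ‖(((‖v‖ : ℝ) : ℂ)⁻¹) • v‖ = 1 := by
      rw [norm_smul, norm_inv, Complex.norm_real, norm_norm, inv_mul_cancel₀ hn]
    have ho : Orthonormal ℂ (Set.domRestrict ({0} : Set (Fin 2))
        (fun _ : Fin 2 => (((‖v‖ : ℝ) : ℂ)⁻¹) • v)) := by
      refine ⟨fun i => hu, ?_⟩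
      intro i j hij
      exact absurd (Subsingleton.elim i j) hij
    obtain ⟨b, hb⟩ := ho.exists_orthonormalBasis_extension_of_card_eq (by simp)
    refine ⟨b.repr, ((‖v‖ : ℝ) : ℂ), ?_⟩
    have h0 : b 0 = (((‖v‖ : ℝ) : ℂ)⁻¹) • v := hb 0 rfl
    have h1 : v = ((‖v‖ : ℝ) : ℂ) • b 0 := by
      rw [h0, smul_smul, mul_inv_cancel₀ hnc, one_smul]
    have h2 : b.repr (b 0) = e1 := b.repr_self 0
    calc b.repr v = b.repr (((‖v‖ : ℝ) : ℂ) • b 0) := by rw [← h1]
      _ = ((‖v‖ : ℝ) : ℂ) • e1 := by rw [map_smul, h2]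

/-- the unitary changes of coordinates -/
noncomputable def UU (f : ℕ → (E ≃ E)) : ℕ → (E ≃ₗᵢ[ℂ] E)
  | 0 => LinearIsometryEquiv.refl ℂ E
  | n + 1 => (exists_unitary (fderiv ℂ (f n) 0 ((UU f n).symm e1))).choose

lemma UU_spec (f : ℕ → (E ≃ E)) (n : ℕ) :
    ∃ c : ℂ, UU f (n + 1) (fderiv ℂ (f n) 0 ((UU f n).symm e1)) = c • e1 :=
  (exists_unitary (fderiv ℂ (f n) 0 ((UU f n).symm e1))).choose_spec

theorem triang {C D : ℝ} {f : ℕ → (E ≃ E)} (h : Admissible C D f) :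
    ∃ g : ℕ → (E ≃ E), Admissible C D g ∧ Tri g ∧ basin g = basin f := by
  let g : ℕ → (E ≃ E) := fun n =>
    ((UU f n).symm.toEquiv.trans (f n)).trans (UU f (n + 1)).toEquiv
  have hg : ∀ n z, g n z = UU f (n + 1) (f n ((UU f n).symm z)) := fun n z => rfl
  have hgf : ∀ n, (g n : E → E) = (UU f (n + 1) : E → E) ∘ ((f n : E → E) ∘
      ((UU f n).symm : E → E)) := fun n => rfl
  refine ⟨g, ⟨fun n => ?_, fun n => ?_, fun n z hz => ?_⟩, fun n => ?_, ?_⟩
  · rw [hgf]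
    exact (UU f (n + 1)).differentiable.comp ((h.diff n).comp (UU f n).symm.differentiable)
  · have : ((g n).symm : E → E) = (UU f n : E → E) ∘ (((f n).symm : E → E) ∘
      ((UU f (n + 1)).symm : E → E)) := rfl
    rw [this]
    exact (UU f n).differentiable.comp ((h.diffs n).comp (UU f (n + 1)).symm.differentiable)
  · rw [hg, LinearIsometryEquiv.norm_map]
    have := h.bound n ((UU f n).symm z) (by rwa [LinearIsometryEquiv.norm_map])
    rwa [LinearIsometryEquiv.norm_map] at this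
  · obtain ⟨c, hc⟩ := UU_spec f n
    refine ⟨c, ?_⟩
    have hd0 : DifferentiableAt ℂ (f n) ((UU f n).symm 0) := h.diff n _
    have hd1 : HasFDerivAt (f n) (fderiv ℂ (f n) ((UU f n).symm 0)) ((UU f n).symm 0) :=
      hd0.hasFDerivAt
    have hd2 : HasFDerivAt ((UU f n).symm : E → E)
        ((UU f n).symm.toContinuousLinearEquiv : E →L[ℂ] E) 0 :=
      (UU f n).symm.toContinuousLinearEquiv.hasFDerivAt
    have hd3 : HasFDerivAt ((UU f (n + 1)) : E → E)
        ((UU f (n + 1)).toContinuousLinearEquiv : E →L[ℂ] E) (f n ((UU f n).symm 0)) :=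
      (UU f (n + 1)).toContinuousLinearEquiv.hasFDerivAt
    have hd4 := hd3.comp (0 : E) (hd1.comp (0 : E) hd2)
    have hd5 : fderiv ℂ (g n) 0 = _ := hd4.fderiv
    rw [hd5]
    rw [map_zero] 
    exact hc
  · have hF : ∀ n z, F g n z = UU f n (F f n z) := by
      intro n z
      induction n with
      | zero => rfl
      | succ n ih => rw [F_succ, F_succ, ih, hg, LinearIsometryEquiv.symm_apply_apply]
    ext z
    show Tendsto (fun n => F g n z) atTop (𝓝 0) ↔ Tendsto (fun n => F f n z) atTop (𝓝 0)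
    have t1 : Tendsto (fun n => F g n z) atTop (𝓝 0) ↔
        Tendsto (fun n => ‖F g n z‖) atTop (𝓝 0) := tendsto_zero_iff_norm_tendsto_zero
    have t2 : Tendsto (fun n => F f n z) atTop (𝓝 0) ↔
        Tendsto (fun n => ‖F f n z‖) atTop (𝓝 0) := tendsto_zero_iff_norm_tendsto_zero
    rw [t1, t2]
    simp only [hF, LinearIsometryEquiv.norm_map]

/-- base point, size and triangular derivatives at once -/
theorem normal {C D C' D' : ℝ} (hC' : 0 < C') (hCC : C' < C) (hDD : D < D') (hD' : D' < 1)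
    (hD0 : 0 < D) {f : ℕ → (E ≃ E)} (h : Admissible C D f) {p : E} (hp : p ∈ basin f)
    {k : ℕ} (hk : 1 ≤ k) :
    ∃ g : ℕ → (E ≃ E), Admissible (C' ^ k) (D' ^ k) g ∧ Tri g ∧ ∃ A : E ≃ E,
      Differentiable ℂ A ∧ Differentiable ℂ A.symm ∧ A 0 = p ∧ A '' (basin g) = basin f := by
  obtain ⟨g, hg, A, hA, hA', hA0, hAb⟩ := move hC' hCC hDD hD' hD0 h hp
  obtain ⟨g', hg', hb⟩ := group hC' (hD0.trans hDD) hD' hg hk
  obtain ⟨g'', hg'', ht, hb'⟩ := triang hg'
  exact ⟨g'', hg'', ht, A, hA, hA', hA0, by rw [hb', hb, hAb]⟩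

theorem reduction_tau (τ : ℝ) {ε : ℝ} (hε : 0 < ε) :
    (∀ (C D : ℝ) (f : ℕ → (E ≃ E)), 0 < C → C < D → D < 1 → D ^ τ < C → Admissible C D f →
      ∀ p ∈ basin f, Good (basin f) p) ↔
    (∀ (C D : ℝ) (f : ℕ → (E ≃ E)), 0 < C → C < D → D < 1 → D ^ τ < C → Admissible C D f →
      D < ε → Tri f → Good (basin f) 0) := by
  constructor
  · intro H C D f hC hCD hD hτ hf _ _
    exact H C D f hC hCD hD hτ hf 0 (zero_mem_basin hf)
  · intro H C D f hC hCD hD hτ hf p hp
    have hD0 : 0 < D := hC.trans hCD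
    -- choice of C', D'
    obtain ⟨C', hC1, hC2⟩ : ∃ C', max (D ^ τ) 0 < C' ∧ C' < C :=
      exists_between (max_lt hτ hC)
    have hC0 : 0 < C' := (le_max_right _ _).trans_lt hC1
    have hcont : ContinuousAt (fun x : ℝ => x ^ τ) D := Real.continuousAt_rpow_const D τ (Or.inl hD0.ne')
    have hev : ∀ᶠ x in 𝓝[>] D, x ^ τ < C' := by
      apply nhdsWithin_le_nhds
      exact hcont.eventually_lt_const ((le_max_left _ _).trans_lt hC1)
    have hev2 : ∀ᶠ x in 𝓝[>] D, x < 1 := by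
      apply nhdsWithin_le_nhds
      exact eventually_lt_nhds hD
    have hev3 : ∀ᶠ x in 𝓝[>] D, D < x := eventually_mem_nhdsWithin
    obtain ⟨D', ⟨h1, h2⟩, h3⟩ := ((hev.and hev2).and hev3).exists
    have hD0' : 0 < D' := hD0.trans h3
    obtain ⟨k, hk⟩ := exists_pow_lt_of_lt_one hε h2
    obtain ⟨g, hg, ht, A, hA, hA', hA0, hAb⟩ := normal hC0 hC2 h3 h2 hD0 hf hp
      (k := k + 1) (by omega)
    have h4 : D' ^ (k + 1) < 1 := pow_lt_one₀ hD0'.le h2 (by omega)
    have h5 : D' ^ (k + 1) < ε := by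
      refine lt_of_le_of_lt ?_ hk
      exact pow_le_pow_of_le_one hD0'.le h2.le (by omega)
    have h6 : C' ^ (k + 1) < D' ^ (k + 1) :=
      pow_lt_pow_left₀ (by linarith) hC0.le (by omega)
    have h7 : (D' ^ (k + 1)) ^ τ < C' ^ (k + 1) := by
      rw [← Real.rpow_natCast, ← Real.rpow_mul hD0'.le, mul_comm, Real.rpow_mul hD0'.le,
        Real.rpow_natCast]
      exact pow_lt_pow_left₀ h1 (Real.rpow_nonneg hD0'.le _) (by omega)
    have h8 := H _ _ g (pow_pos hC0 _) h6 h4 h7 hg h5 ht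
    rw [← hA0]
    exact good_move hA hA' hAb h8

theorem reduction_all {ε : ℝ} (hε : 0 < ε) :
    (∀ (C D : ℝ) (f : ℕ → (E ≃ E)), 0 < C → C < D → D < 1 → Admissible C D f →
      ∀ p ∈ basin f, Good (basin f) p) ↔
    (∀ (C D : ℝ) (f : ℕ → (E ≃ E)), 0 < C → C < D → D < 1 → Admissible C D f →
      D < ε → Tri f → Good (basin f) 0) := by
  constructor
  · intro H C D f hC hCD hD hf _ _
    exact H C D f hC hCD hD hf 0 (zero_mem_basin hf)
  · intro H C D f hC hCD hD hf p hp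
    have hD0 : 0 < D := hC.trans hCD
    obtain ⟨k, hk⟩ := exists_pow_lt_of_lt_one hε (by linarith : (1 + D) / 2 < 1)
    obtain ⟨g, hg, ht, A, hA, hA', hA0, hAb⟩ := normal (C' := C / 2) (D' := (1 + D) / 2)
      (by linarith) (by linarith) (by linarith) (by linarith) hD0 hf hp (k := k + 1) (by omega)
    have hD0' : 0 < (1 + D) / 2 := by linarith
    have h2 : (1 + D) / 2 < 1 := by linarith
    have h4 : ((1 + D) / 2) ^ (k + 1) < 1 := pow_lt_one₀ hD0'.le h2 (by omega)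
    have h5 : ((1 + D) / 2) ^ (k + 1) < ε := by
      refine lt_of_le_of_lt ?_ hk
      exact pow_le_pow_of_le_one hD0'.le h2.le (by omega)
    have h6 : (C / 2) ^ (k + 1) < ((1 + D) / 2) ^ (k + 1) :=
      pow_lt_pow_left₀ (by linarith) (by linarith) (by omega)
    have h8 := H _ _ g (pow_pos (by linarith) _) h6 h4 hg h5 ht
    rw [← hA0]
    exact good_move hA hA' hAb h8

end Pool.Agent.H76.NB
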